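import Mathlib

/-!
# From local consistency to proof size

`W` is a finite set of vertices, `A` a finite set of labels.  A *line* is a disjunction
`⋁_w L w ∈ S w` of unary constraints on a labeling `L : W → A`.  A *refutation* is a sequence of
lines in which every line follows from one constraint or from two earlier lines, and which
contains the empty line.  If the constraints admit a `k`-consistent family of partial labelings
then every refutation has at least `exp (b d / (|W| |A|))` lines whenever `b + 3 d ≤ k`.
-/

set_option autoImplicit false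

namespace Pool.Agent.MP_ec946a_lc_h92

open Finset

variable {W A : Type} [Fintype W] [DecidableEq W] [Fintype A] [DecidableEq A]

/-- The domain of a partial labeling. -/
def pdom (h : W → Option A) : Finset W := univ.filter fun w => h w ≠ none

/-- The restriction of a partial labeling to a set of vertices. -/
def prestrict (h : W → Option A) (D : Finset W) : W → Option A := fun w => if w ∈ D then h w else none

/-- The line `S` is satisfied by the labeling `L`. -/
def LineSat (L : W → A) (S : W → Finset A) : Prop := ∃ w, L w ∈ S w

/-- A family of partial labelings that `k`-consistency accepts, for constraints `sat e`,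
`e : E`, where `sat e` depends on the labels of the vertices in `supp e` only. -/
structure Family {E : Type} (supp : E → Finset W) (sat : E → (W → A) → Prop) (k : ℕ)
    (H : Set (W → Option A)) : Prop where
  empty : (fun _ => none) ∈ H
  restrict : ∀ h ∈ H, ∀ D, prestrict h D ∈ H
  forth : ∀ h ∈ H, (pdom h).card < k → ∀ w, h w = none → ∃ a, Function.update h w (some a) ∈ H
  sound : ∀ h ∈ H, ∀ e, supp e ⊆ pdom h → ∀ L : W → A, (∀ w a, h w = some a → L w = a) → sat e L

omit [DecidableEq A] [Fintype A] in
lemma mem_pdom {h : W → Option A} {w : W} : w ∈ pdom h ↔ h w ≠ none := by simp [pdom]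

omit [DecidableEq A] [Fintype A] in
lemma pdom_update {h : W → Option A} {w : W} {a : A} :
    pdom (Function.update h w (some a)) = insert w (pdom h) := by
  ext x
  simp only [mem_pdom, mem_insert]
  by_cases hx : x = w
  · subst hx; simp
  · simp [Function.update_of_ne hx, hx]

omit [DecidableEq A] [Fintype A] in
lemma pdom_prestrict {h : W → Option A} {D : Finset W} :
    pdom (prestrict h D) ⊆ D := by
  intro x hx
  rw [mem_pdom] at hx
  unfold prestrict at hx
  by_contra hxD
  simp [hxD] at hx

section
variable {E : Type} {supp : E → Finset W} {sat : E → (W → A) → Prop} {k : ℕ}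
  {H : Set (W → Option A)}

omit [DecidableEq A] [Fintype A] in
/-- Extending a partial labeling to a larger domain. -/
lemma Family.extend (hH : Family supp sat k H) {h : W → Option A} (hh : h ∈ H) (D : Finset W)
    (hD : (pdom h ∪ D).card ≤ k) :
    ∃ g ∈ H, (∀ w a, h w = some a → g w = some a) ∧ pdom g = pdom h ∪ D := by
  classical
  induction D using Finset.induction_on with
  | empty => exact ⟨h, hh, fun _ _ h => h, by simp⟩
  | insert x D hx ih =>
    have hsub : pdom h ∪ D ⊆ pdom h ∪ insert x D :=
      union_subset_union_right (subset_insert _ _)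
    obtain ⟨g, hg, hgh, hgd⟩ := ih ((card_le_card hsub).trans hD)
    by_cases hxg : g x = none
    · have hxn : x ∉ pdom h ∪ D := by
        rw [← hgd, mem_pdom]; simpa using hxg
      have hlt : (pdom g).card < k := by
        rw [hgd]
        have : (insert x (pdom h ∪ D)).card ≤ k := by
          rw [← union_insert]; exact hD
        rw [card_insert_of_notMem hxn] at this
        omega
      obtain ⟨a, ha⟩ := hH.forth g hg hlt x hxg
      refine ⟨_, ha, ?_, ?_⟩
      · intro w b hb
        have hwx : w ≠ x := by
          rintro rfl
          have := hgh _ _ hb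
          rw [hxg] at this; cases this
        rw [Function.update_of_ne hwx]
        exact hgh _ _ hb
      · rw [pdom_update, hgd, union_insert]
    · refine ⟨g, hg, hgh, ?_⟩
      have : x ∈ pdom h ∪ D := by rw [← hgd, mem_pdom]; exact hxg
      rw [hgd, union_insert, insert_eq_of_mem this]

/-- The vertices that a line still mentions after the restriction `ρ`. -/
noncomputable def lsupp (H : Set (W → Option A)) (ρ : W → Option A) (S : W → Finset A) : Finset W :=
  by
  classical
  exact univ.filter fun w => ρ w = none ∧ ∃ a ∈ S w, Function.update ρ w (some a) ∈ H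

/-- The line `S` is not satisfied by the restriction `ρ`. -/
def Alive (ρ : W → Option A) (S : W → Finset A) : Prop := ∀ w a, ρ w = some a → a ∉ S w

/-- The fat lines. -/
noncomputable def fat {m : ℕ} (H : Set (W → Option A)) (line : Fin m → W → Finset A) (d : ℕ)
    (ρ : W → Option A) : Finset (Fin m) := by
  classical
  exact univ.filter fun t => Alive ρ (line t) ∧ d ≤ (lsupp H ρ (line t)).card

omit [DecidableEq A] [Fintype A] in
lemma mem_lsupp {ρ : W → Option A} {S : W → Finset A} {w : W} :
    w ∈ lsupp H ρ S ↔ ρ w = none ∧ ∃ a ∈ S w, Function.update ρ w (some a) ∈ H := by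
  classical
  simp [lsupp]

omit [DecidableEq A] [Fintype A] in
lemma mem_fat {m : ℕ} {line : Fin m → W → Finset A} {d : ℕ} {ρ : W → Option A} {t : Fin m} :
    t ∈ fat H line d ρ ↔ Alive ρ (line t) ∧ d ≤ (lsupp H ρ (line t)).card := by
  classical
  simp [fat]

omit [DecidableEq A] [Fintype A] in
lemma Family.update_allowed (hH : Family supp sat k H) {ρ : W → Option A} {w : W} {a : A}
    {w' : W} {a' : A} (hρw : ρ w = none)
    (h : Function.update (Function.update ρ w (some a)) w' (some a') ∈ H) (hne : w' ≠ w) :
    Function.update ρ w' (some a') ∈ H := by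
  have := hH.restrict _ h (univ.erase w)
  convert this using 1
  ext1 x
  unfold prestrict
  by_cases hx : x = w
  · subst hx
    simp [Function.update_of_ne hne.symm, hρw]
  · by_cases hx' : x = w'
    · subst hx'; simp [hx]
    · simp [Function.update_of_ne hx', Function.update_of_ne hx, hx]

/-- One greedy step: some allowed assignment kills many fat lines. -/
lemma Family.step (hH : Family supp sat k H) {m : ℕ} (line : Fin m → W → Finset A) (d : ℕ)
    {ρ : W → Option A} (hρ : ρ ∈ H) (hne : (fat H line d ρ).Nonempty) (hd : 1 ≤ d) :
    ∃ w a, ρ w = none ∧ Function.update ρ w (some a) ∈ H ∧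
      ((fat H line d (Function.update ρ w (some a))).card : ℝ) ≤
        (1 - d / (Fintype.card W * Fintype.card A)) * (fat H line d ρ).card := by
  classical
  set T := fat H line d ρ with hT
  set P : Finset (W × A) := univ.filter fun p => ρ p.1 = none ∧ Function.update ρ p.1 (some p.2) ∈ H
    with hP
  have hPcard : P.card ≤ Fintype.card W * Fintype.card A := by
    calc P.card ≤ (univ : Finset (W × A)).card := card_le_card (filter_subset _ _)
      _ = _ := by simp
  -- double counting
  have hcount : d * T.card ≤ ∑ p ∈ P, (T.filter fun t => p.2 ∈ line t p.1).card := by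
    have h1 : ∑ p ∈ P, (T.filter fun t => p.2 ∈ line t p.1).card
        = ∑ t ∈ T, (P.filter fun p => p.2 ∈ line t p.1).card := by
      simp only [card_filter]
      rw [sum_comm]
    rw [h1, mul_comm]
    rw [← smul_eq_mul, ← sum_const]
    refine sum_le_sum fun t ht => ?_
    rw [hT, mem_fat] at ht
    refine ht.2.trans ?_
    have : lsupp H ρ (line t) ⊆ (P.filter fun p => p.2 ∈ line t p.1).image Prod.fst := by
      intro w hw
      rw [mem_lsupp] at hw
      obtain ⟨h1, a, h2, h3⟩ := hw
      rw [mem_image]
      exact ⟨(w, a), by simp [hP, h1, h2, h3], rfl⟩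
    exact (card_le_card this).trans card_image_le
  have hPne : P.Nonempty := by
    obtain ⟨t, ht⟩ := hne
    rw [mem_fat] at ht
    have : (lsupp H ρ (line t)).Nonempty := card_pos.mp (by omega)
    obtain ⟨w, hw⟩ := this
    rw [mem_lsupp] at hw
    obtain ⟨h1, a, h2, h3⟩ := hw
    exact ⟨(w, a), by simp [hP, h1, h3]⟩
  obtain ⟨p, hp, hpc⟩ : ∃ p ∈ P, (d : ℝ) * T.card / (Fintype.card W * Fintype.card A) ≤
      ((T.filter fun t => p.2 ∈ line t p.1).card : ℝ) := by
    by_contra hcon
    push_neg at hcon
    have h2 : ∑ p ∈ P, ((T.filter fun t => p.2 ∈ line t p.1).card : ℝ) <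
        ∑ _p ∈ P, (d : ℝ) * T.card / (Fintype.card W * Fintype.card A) :=
      sum_lt_sum_of_nonempty hPne hcon
    rw [sum_const, nsmul_eq_mul] at h2
    have h3 : (d : ℝ) * T.card ≤ ∑ p ∈ P, ((T.filter fun t => p.2 ∈ line t p.1).card : ℝ) := by
      exact_mod_cast hcount
    have hpos : (0 : ℝ) < (Fintype.card W * Fintype.card A : ℝ) := by
      have : 0 < P.card := card_pos.mpr hPne
      have : 0 < Fintype.card W * Fintype.card A := by omega
      exact_mod_cast this
    have h4 : (P.card : ℝ) * ((d : ℝ) * T.card / (Fintype.card W * Fintype.card A)) ≤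
        (d : ℝ) * T.card := by
      rw [mul_div_assoc', div_le_iff₀ hpos, mul_comm]
      refine mul_le_mul_of_nonneg_left ?_ (by positivity)
      exact_mod_cast hPcard
    linarith
  obtain ⟨w, a⟩ := p
  simp only [hP, mem_filter, mem_univ, true_and] at hp
  refine ⟨w, a, hp.1, hp.2, ?_⟩
  have hsub : fat H line d (Function.update ρ w (some a)) ⊆ T \ (T.filter fun t => a ∈ line t w) := by
    intro t ht
    rw [mem_fat] at ht
    obtain ⟨h1, h2⟩ := ht
    have halive : Alive ρ (line t) := by
      intro x b hb
      have hxw : x ≠ w := by rintro rfl; rw [hp.1] at hb; cases hb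
      exact h1 x b (by rw [Function.update_of_ne hxw]; exact hb)
    have hna : a ∉ line t w := h1 w a (by simp)
    rw [mem_sdiff, mem_filter, hT, mem_fat]
    refine ⟨⟨halive, h2.trans (card_le_card ?_)⟩, fun h => hna h.2⟩
    intro x hx
    rw [mem_lsupp] at hx ⊢
    obtain ⟨h3, b, h4, h5⟩ := hx
    have hxw : x ≠ w := by rintro rfl; simp at h3
    rw [Function.update_of_ne hxw] at h3
    exact ⟨h3, b, h4, hH.update_allowed hp.1 h5 hxw⟩
  have hc : (fat H line d (Function.update ρ w (some a))).card ≤
      T.card - (T.filter fun t => a ∈ line t w).card := by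
    refine (card_le_card hsub).trans ?_
    rw [card_sdiff_of_subset (filter_subset _ _)]
  have hle : (T.filter fun t => a ∈ line t w).card ≤ T.card := card_le_card (filter_subset _ _)
  have hc' : ((fat H line d (Function.update ρ w (some a))).card : ℝ) ≤
      (T.card : ℝ) - ((T.filter fun t => a ∈ line t w).card : ℝ) := by
    rw [← Nat.cast_sub hle]; exact_mod_cast hc
  simp only at hpc
  have : (1 - d / (Fintype.card W * Fintype.card A)) * (T.card : ℝ) =
      (T.card : ℝ) - (d : ℝ) * T.card / (Fintype.card W * Fintype.card A) := by ring
  rw [this]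
  linarith

/-- Iterating the greedy step. -/
lemma Family.greedy (hH : Family supp sat k H) {m : ℕ} (line : Fin m → W → Finset A) (d : ℕ)
    (hd : 1 ≤ d) (hdW : d ≤ Fintype.card W * Fintype.card A) (b : ℕ) :
    ∃ ρ ∈ H, (pdom ρ).card ≤ b ∧
      ((fat H line d ρ).card : ℝ) ≤ (1 - d / (Fintype.card W * Fintype.card A)) ^ b * m := by
  induction b with
  | zero =>
    refine ⟨_, hH.empty, by simp [pdom], ?_⟩
    have := card_le_univ (fat H line d fun _ => none)
    rw [Fintype.card_fin] at this
    simp only [pow_zero, one_mul]
    exact_mod_cast this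
  | succ b ih =>
    obtain ⟨ρ, hρ, hρb, hρc⟩ := ih
    have hpos : (0 : ℝ) < (Fintype.card W * Fintype.card A : ℝ) := by
      have : 0 < Fintype.card W * Fintype.card A := by omega
      exact_mod_cast this
    have hx1 : (d : ℝ) / (Fintype.card W * Fintype.card A) ≤ 1 := by
      rw [div_le_one hpos]; exact_mod_cast hdW
    by_cases hne : (fat H line d ρ).Nonempty
    · obtain ⟨w, a, hw, hwa, hc⟩ := hH.step line d hρ hne hd
      refine ⟨_, hwa, ?_, hc.trans ?_⟩
      · rw [pdom_update]
        exact (card_insert_le _ _).trans (by omega)
      · rw [pow_succ', mul_assoc]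
        exact mul_le_mul_of_nonneg_left hρc (by linarith)
    · refine ⟨ρ, hρ, by omega, ?_⟩
      rw [not_nonempty_iff_eq_empty.mp hne]
      simp only [card_empty, Nat.cast_zero]
      have : (0 : ℝ) ≤ 1 - d / (Fintype.card W * Fintype.card A) := by linarith
      positivity

/-- **Size from consistency.** -/
theorem Family.size (hH : Family supp sat k H) (hsupp : ∀ e, (supp e).card ≤ 2) {m : ℕ}
    (line : Fin m → W → Finset A)
    (infer : ∀ t, (∃ e, ∀ L, sat e L → LineSat L (line t)) ∨
      ∃ s s', s < t ∧ s' < t ∧ ∀ L, LineSat L (line s) → LineSat L (line s') → LineSat L (line t))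
    (last : ∃ t, ∀ w, line t w = ∅) (b d : ℕ) (hd : 1 ≤ d) (hk : b + 3 * d ≤ k)
    (hdW : d ≤ Fintype.card W * Fintype.card A) :
    Real.exp (b * d / (Fintype.card W * Fintype.card A)) ≤ m := by
  classical
  by_contra hcon
  push_neg at hcon
  obtain ⟨ρ, hρ, hρb, hρc⟩ := hH.greedy line d hd hdW b
  have hposN : 0 < Fintype.card W * Fintype.card A := by omega
  have hpos : (0 : ℝ) < (Fintype.card W * Fintype.card A : ℝ) := by exact_mod_cast hposN
  have hfat : fat H line d ρ = ∅ := by
    rw [← card_eq_zero]
    by_contra h0
    have h1 : (1 : ℝ) ≤ (fat H line d ρ).card := by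
      exact_mod_cast Nat.one_le_iff_ne_zero.mpr h0
    have hx1 : (d : ℝ) / (Fintype.card W * Fintype.card A) ≤ 1 := by
      rw [div_le_one hpos]; exact_mod_cast hdW
    have h2 : (1 - (d : ℝ) / (Fintype.card W * Fintype.card A)) ^ b ≤
        Real.exp (-(b * d / (Fintype.card W * Fintype.card A))) := by
      have h3 : 1 - (d : ℝ) / (Fintype.card W * Fintype.card A) ≤
          Real.exp (-(d / (Fintype.card W * Fintype.card A))) := by
        have := Real.add_one_le_exp (-((d : ℝ) / (Fintype.card W * Fintype.card A)))
        linarith
      calc (1 - (d : ℝ) / (Fintype.card W * Fintype.card A)) ^ b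
          ≤ (Real.exp (-(d / (Fintype.card W * Fintype.card A)))) ^ b :=
            pow_le_pow_left₀ (by linarith) h3 b
        _ = _ := by rw [← Real.exp_nat_mul]; congr 1; ring
    have h4 : (1 : ℝ) ≤ Real.exp (-(b * d / (Fintype.card W * Fintype.card A))) * m :=
      h1.trans (hρc.trans (mul_le_mul_of_nonneg_right h2 (by positivity)))
    rw [Real.exp_neg] at h4
    have hE := Real.exp_pos ((b : ℝ) * d / (Fintype.card W * Fintype.card A))
    rw [inv_mul_eq_div, le_div_iff₀ hE, one_mul] at h4
    linarith
  -- lines with few mentioned vertices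
  have hthin : ∀ t, Alive ρ (line t) → (lsupp H ρ (line t)).card < d := by
    intro t ht
    by_contra h
    push_neg at h
    have : t ∈ fat H line d ρ := by rw [mem_fat]; exact ⟨ht, h⟩
    rw [hfat] at this
    simp at this
  -- `g` falsifies line `t`
  let Fals : (W → Option A) → Fin m → Prop := fun g t =>
    g ∈ H ∧ (∀ w a, ρ w = some a → g w = some a) ∧ lsupp H ρ (line t) ⊆ pdom g ∧ Alive g (line t) ∧
      (pdom g).card ≤ b + d
  have hex : ∃ t, ∃ g, Fals g t := by
    obtain ⟨t, ht⟩ := last
    refine ⟨t, ρ, hρ, fun _ _ h => h, ?_, ?_, by omega⟩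
    · intro w hw
      rw [mem_lsupp, ht w] at hw
      simp at hw
    · intro w a _
      rw [ht w]; simp
  -- take the first such line
  obtain ⟨t, ⟨g, hgH, hgρ, hgs, hga, hgc⟩, hmin⟩ :
      ∃ t, (∃ g, Fals g t) ∧ ∀ s, s < t → ¬ ∃ g, Fals g s := by
    have hwf : WellFounded ((· < ·) : Fin m → Fin m → Prop) := wellFounded_lt
    refine ⟨hwf.min {t | ∃ g, Fals g t} hex, hwf.min_mem _ hex, ?_⟩
    intro s hs h
    exact hwf.not_lt_min _ h hs
  -- completing a partial labeling that extends `ρ`
  have hcomplete : ∀ g' ∈ H, (∀ w a, g w = some a → g' w = some a) →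
      ∃ L : W → A, (∀ w a, g' w = some a → L w = a) ∧ ¬ LineSat L (line t) ∧
        ∀ w, g' w = none → Function.update ρ w (some (L w)) ∈ H := by
    intro g' hg' hgg'
    have hall : ∀ w, ∃ a, (∀ a', g' w = some a' → a = a') ∧
        (g' w = none → Function.update ρ w (some a) ∈ H) := by
      intro w
      cases hw : g' w with
      | some a => exact ⟨a, by simp, by simp⟩
      | none =>
        have hρw : ρ w = none := by
          cases h : ρ w with
          | none => rfl
          | some a =>
            have := hgg' w a (hgρ w a h)
            rw [hw] at this; cases this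
        obtain ⟨a, ha⟩ := hH.forth ρ hρ (by omega) w hρw
        exact ⟨a, by simp, fun _ => ha⟩
    choose L hL1 hL2 using hall
    refine ⟨L, hL1, ?_, hL2⟩
    rintro ⟨w, hw⟩
    cases hw' : g' w with
    | none =>
      have hρw : ρ w = none := by
        cases h : ρ w with
        | none => rfl
        | some a =>
          have := hgg' w a (hgρ w a h)
          rw [hw'] at this; cases this
      have : w ∈ lsupp H ρ (line t) := by
        rw [mem_lsupp]; exact ⟨hρw, L w, hw, hL2 w hw'⟩
      have := hgs this
      rw [mem_pdom] at this
      cases hgw : g w with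
      | none => exact this hgw
      | some a =>
        have := hgg' w a hgw
        rw [hw'] at this; cases this
    | some a =>
      have hLa : L w = a := hL1 w a hw'
      cases hgw : g w with
      | some a' =>
        have := hgg' w a' hgw
        rw [hw'] at this
        obtain rfl : a = a' := by simpa using this
        exact hga w a hgw (hLa ▸ hw)
      | none =>
        have hρw : ρ w = none := by
          cases h : ρ w with
          | none => rfl
          | some a =>
            have := hgρ w a h
            rw [hgw] at this; cases this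
        have : w ∈ lsupp H ρ (line t) := by
          rw [mem_lsupp]
          refine ⟨hρw, a, hLa ▸ hw, ?_⟩
          have := hH.restrict g' hg' (insert w (pdom ρ))
          convert this using 1
          ext1 x
          unfold prestrict
          by_cases hx : x = w
          · subst hx; simp [hw']
          · rw [Function.update_of_ne hx]
            by_cases hxρ : x ∈ pdom ρ
            · simp only [mem_insert, hx, hxρ, or_true, if_true]
              rw [mem_pdom] at hxρ
              cases hρx : ρ x with
              | none => exact absurd hρx hxρ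
              | some c => exact (hgg' x c (hgρ x c hρx)).symm
            · simp only [mem_insert, hx, hxρ, or_false, if_false]
              rw [mem_pdom] at hxρ
              simpa using hxρ
        have := hgs this
        rw [mem_pdom] at this
        exact this hgw
  rcases infer t with ⟨e, he⟩ | ⟨s, s', hs, hs', himp⟩
  · obtain ⟨g', hg', hgg', hgd⟩ := hH.extend hgH (supp e) (by
      refine (card_union_le _ _).trans ?_
      have := hsupp e
      omega)
    obtain ⟨L, hL1, hL2, -⟩ := hcomplete g' hg' hgg'
    refine hL2 (he L (hH.sound g' hg' e ?_ L hL1))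
    rw [hgd]; exact subset_union_right
  · -- extend to the mentioned vertices of the two premises
    let D : Fin m → Finset W := fun s => if Alive ρ (line s) then lsupp H ρ (line s) else ∅
    have hDc : ∀ s, (D s).card ≤ d := by
      intro s
      by_cases h : Alive ρ (line s)
      · simp only [D, h, if_true]; exact (hthin s h).le
      · simp [D, h]
    obtain ⟨g', hg', hgg', hgd⟩ := hH.extend hgH (D s ∪ D s') (by
      refine (card_union_le _ _).trans ?_
      have := card_union_le (D s) (D s')
      have := hDc s
      have := hDc s'
      omega)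
    obtain ⟨L, hL1, hL2, hL3⟩ := hcomplete g' hg' hgg'
    have key : ∀ s, s < t → D s ⊆ pdom g' → LineSat L (line s) := by
      intro s hst hDs
      by_contra hns
      have hal : Alive ρ (line s) := by
        intro w a hwa hmem
        refine hns ⟨w, ?_⟩
        rw [hL1 w a (hgg' w a (hgρ w a hwa))]; exact hmem
      have hDs' : lsupp H ρ (line s) ⊆ pdom g' := by
        simpa only [D, hal, if_true] using hDs
      refine hmin s hst ⟨prestrict g' (pdom ρ ∪ lsupp H ρ (line s)), hH.restrict _ hg' _, ?_, ?_, ?_,
        ?_⟩
      · intro w a hwa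
        unfold prestrict
        have : w ∈ pdom ρ := by rw [mem_pdom, hwa]; simp
        simp only [mem_union, this, true_or, if_true]
        exact hgg' w a (hgρ w a hwa)
      · intro w hw
        have h1 := hDs' hw
        rw [mem_pdom] at h1 ⊢
        unfold prestrict
        simpa only [mem_union, hw, or_true, if_true] using h1
      · intro w a hwa hmem
        unfold prestrict at hwa
        split_ifs at hwa with h
        refine hns ⟨w, ?_⟩
        rw [hL1 w a hwa]; exact hmem
      · refine (card_le_card pdom_prestrict).trans ((card_union_le _ _).trans ?_)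
        have := hthin s hal
        omega
    refine hL2 (himp L (key s hs ?_) (key s' hs' ?_))
    · rw [hgd]; exact (subset_union_left).trans subset_union_right
    · rw [hgd]; exact (subset_union_right).trans subset_union_right

end

end Pool.Agent.MP_ec946a_lc_h92
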